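import Pool.Agent.N783.PQ.Lat
import Pool.Agent.N765.PJ.Exq

/-!
# The primes over `q` (project PQ of helper783)

By helper340, a port to `ℤ` of helper765's file for the project PJ. The ring of integers is a quotient of
`ℤ[X]`; the primes over `q` are the kernels of the maps to `AdjoinRoot m`, `m` an irreducible factor of
`f` modulo `q`.
-/

set_option autoImplicit false
set_option linter.all false

open Polynomial IsDedekindDomain WithZero NumberField
open scoped Classical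

namespace Pool.Agent.N340.PQ

open Pool.Agent.N783.PQ
open Pool.Agent.N874.PP (Ev Sq1 U0)

/-- evaluation at `t` -/
noncomputable def ev {O : Type} [CommRing O] (t : O) : ℤ[X] →+* O :=
  eval₂RingHom (Int.castRingHom O) t

section poly

theorem map_eq_of_cg {q : ℕ} {f f' : ℤ[X]} (h : Cg q f f') : rd q f = rd q f' := by
  ext j
  rw [coeff_map, coeff_map]
  have h1 := (ZMod.intCast_eq_intCast_iff_dvd_sub (f'.coeff j) (f.coeff j) q).2 (h j)
  exact h1.symm

theorem map_rd_eq_zero {q : ℕ} {p : ℤ[X]} (h : rd q p = 0) : ∃ p' : ℤ[X], p = C (q : ℤ) * p' := by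
  have : C (q : ℤ) ∣ p := by
    rw [C_dvd_iff_dvd_coeff]
    intro i
    have h1 := congrArg (fun p => coeff p i) h
    simp only [coeff_map, coeff_zero] at h1
    exact (ZMod.intCast_zmod_eq_zero_iff_dvd (p.coeff i) q).1 h1
  exact this

theorem rd_surj (q : ℕ) : Function.Surjective (rd q) :=
  Polynomial.map_surjective _ ZMod.intCast_surjective

end poly

section main

variable {L : Type} [Field L] [NumberField L] {g : ℕ} {f : ℤ[X]} {θ : L}

theorem ev_L {t : 𝓞 L} (ht : algebraMap (𝓞 L) L t = θ) (p : ℤ[X]) :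
    algebraMap (𝓞 L) L (ev t p) = aeval θ p := by
  unfold ev
  rw [coe_eval₂RingHom, hom_eval₂, ht, aeval_def]
  congr 1

theorem ev_f (h : IsGen g f θ) {t : 𝓞 L} (ht : algebraMap (𝓞 L) L t = θ) : ev t f = 0 := by
  apply IsFractionRing.injective (𝓞 L) L
  rw [ev_L ht, h.root, map_zero]

/-- a polynomial of small degree with value zero -/
theorem small_zero (h : IsGen g f θ) {r : ℤ[X]} (hr : r.degree < ((2 * g + 1 : ℕ) : WithBot ℕ))
    (h0 : aeval θ r = 0) : r = 0 := by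
  have hli := Fintype.linearIndependent_iff.1 h.basis.linearIndependent
  have h1 : ∑ i : Fin (2 * g + 1), ((r.coeff i : ℤ) : ℚ) • h.basis i = 0 := by
    rw [← h0, aeval_def, eval₂_eq_sum_range' (algebraMap ℤ L) (n := 2 * g + 1),
      ← Fin.sum_univ_eq_sum_range (fun i => algebraMap ℤ L (r.coeff i) * θ ^ i)]
    · refine Finset.sum_congr rfl fun i _ => ?_
      rw [h.basis_apply, Algebra.smul_def]
      simp
    · by_cases hr0 : r = 0
      · rw [hr0]; simp
      · exact (natDegree_lt_iff_degree_lt hr0).2 hr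
  have h2 := hli _ h1
  ext1 i
  rw [coeff_zero]
  by_cases hi : i < 2 * g + 1
  · have h3 := h2 ⟨i, hi⟩
    exact_mod_cast h3
  · exact coeff_eq_zero_of_degree_lt (hr.trans_le (by exact_mod_cast (not_lt.1 hi)))

theorem deg_f (h : IsGen g f θ) : f.degree = ((2 * g + 1 : ℕ) : WithBot ℕ) := by
  rw [degree_eq_natDegree h.mon.ne_zero, h.deg]

theorem ev_ker (h : IsGen g f θ) {t : 𝓞 L} (ht : algebraMap (𝓞 L) L t = θ) {p : ℤ[X]}
    (hp : ev t p = 0) : f ∣ p := by
  rw [← modByMonic_eq_zero_iff_dvd h.mon]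
  refine small_zero h ?_ ?_
  · rw [← deg_f h]
    exact degree_modByMonic_lt _ h.mon
  · rw [← ev_L ht]
    have h1 := modByMonic_add_div p f
    have h2 := congrArg (ev t) h1
    rw [map_add, map_mul, ev_f h ht, zero_mul, add_zero, hp] at h2
    rw [h2, map_zero]

/-- the polynomial with given coordinates -/
theorem crd_poly {t : 𝓞 L} (ht : algebraMap (𝓞 L) L t = θ) {v : Fin (2 * g + 1) → ℤ} {z : 𝓞 L}
    (hz : Crd g θ v (algebraMap (𝓞 L) L z)) : ∃ p : ℤ[X],
      p.degree < ((2 * g + 1 : ℕ) : WithBot ℕ) ∧ ev t p = z ∧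
      ∀ i : Fin (2 * g + 1), p.coeff i = v i := by
  refine ⟨∑ i : Fin (2 * g + 1), C (v i) * X ^ (i : ℕ), degree_sum_fin_lt _, ?_, ?_⟩
  · apply IsFractionRing.injective (𝓞 L) L
    rw [ev_L ht, hz, map_sum]
    refine Finset.sum_congr rfl fun i _ => ?_
    rw [map_mul, aeval_C, aeval_X_pow]
    simp
  · intro i
    rw [finset_sum_coeff, Finset.sum_eq_single i]
    · rw [coeff_C_mul, coeff_X_pow, if_pos rfl, mul_one]
    · intro j _ hj
      rw [coeff_C_mul, coeff_X_pow, if_neg, mul_zero]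
      exact fun h => hj (Fin.ext h.symm)
    · intro hi
      exact absurd (Finset.mem_univ _) hi

theorem ov_iff {q : ℕ} (hq : q.Prime) {𝔓 : HeightOneSpectrum (𝓞 L)} (hov : Ov q 𝔓)
    (c : ℤ) : (c : 𝓞 L) ∈ 𝔓.asIdeal ↔ (q : ℤ) ∣ c := by
  have hov' : (q : 𝓞 L) ∈ 𝔓.asIdeal := hov
  constructor
  · intro hc
    by_contra hn
    obtain ⟨u, v, huv⟩ : IsCoprime (q : ℤ) c :=
      ((Nat.prime_iff_prime_int.1 hq).coprime_iff_not_dvd).mpr hn
    have : ((u * q + v * c : ℤ) : 𝓞 L) ∈ 𝔓.asIdeal := by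
      push_cast
      exact Ideal.add_mem _ (Ideal.mul_mem_left _ _ hov') (Ideal.mul_mem_left _ _ hc)
    rw [huv, Int.cast_one] at this
    exact 𝔓.isPrime.ne_top ((Ideal.eq_top_iff_one _).mpr this)
  · rintro ⟨d, rfl⟩
    push_cast
    exact Ideal.mul_mem_right _ _ hov'

theorem ev_C (t : 𝓞 L) (c : ℤ) : ev t (C c) = (c : 𝓞 L) := by simp [ev]

theorem ev_X (t : 𝓞 L) : ev t X = t := by simp [ev]

theorem ev_CQ (t : 𝓞 L) (q : ℕ) (p : ℤ[X]) : ev t (C (q : ℤ) * p) = (q : 𝓞 L) * ev t p := by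
  rw [map_mul, ev_C]
  simp

/-- membership by reduction modulo `q` -/
theorem mem_of_dvd {q : ℕ} {t : 𝓞 L} {I : Ideal (𝓞 L)} (hQI : (q : 𝓞 L) ∈ I)
    {m p : ℤ[X]} (hm : ev t m ∈ I) (hd : rd q m ∣ rd q p) : ev t p ∈ I := by
  obtain ⟨c, hc⟩ := hd
  obtain ⟨c, rfl⟩ := rd_surj q c
  have h1 : rd q (p - m * c) = 0 := by
    rw [rd, Polynomial.map_sub, Polynomial.map_mul]
    rw [rd, rd, rd] at hc
    rw [hc, sub_self]
  obtain ⟨d, hd⟩ := map_rd_eq_zero h1
  have h2 : p = m * c + C (q : ℤ) * d := by rw [← hd]; ring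
  rw [h2, map_add, map_mul, ev_CQ]
  exact I.add_mem (I.mul_mem_right _ hm) (I.mul_mem_right _ hQI)

theorem theta_ex (h : IsGen g f θ) : ∃ t : 𝓞 L, algebraMap (𝓞 L) L t = θ :=
  ⟨⟨θ, ⟨f, h.mon, by rw [← aeval_def]; exact h.root⟩⟩, rfl⟩

/-- integers as values of polynomials -/
theorem ex_poly (hI : S_INT) (h : IsGen g f θ) (hsq : Squarefree (dsc g f)) {t : 𝓞 L}
    (ht : algebraMap (𝓞 L) L t = θ) (z : 𝓞 L) : ∃ p : ℤ[X],
      p.degree < ((2 * g + 1 : ℕ) : WithBot ℕ) ∧ ev t p = z := by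
  obtain ⟨v, hv⟩ := (hI g L f θ h hsq _).1 z.isIntegral_coe
  obtain ⟨p, h1, h2, -⟩ := crd_poly ht hv
  exact ⟨p, h1, h2⟩

theorem ev_surj (hI : S_INT) (h : IsGen g f θ) (hsq : Squarefree (dsc g f)) {t : 𝓞 L}
    (ht : algebraMap (𝓞 L) L t = θ) : Function.Surjective (ev t) := fun z => by
  obtain ⟨p, -, hp⟩ := ex_poly hI h hsq ht z
  exact ⟨p, hp⟩

/-- the map to `AdjoinRoot m` for a factor `m` of `f` modulo `q` -/
theorem ex_psi (hI : S_INT) (h : IsGen g f θ) (hsq : Squarefree (dsc g f)) {t : 𝓞 L}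
    (ht : algebraMap (𝓞 L) L t = θ) (q : ℕ) (m : (ZMod q)[X])
    (hm : m ∣ rd q f) : ∃ ψ : 𝓞 L →+* AdjoinRoot m,
      ∀ p : ℤ[X], ψ (ev t p) = AdjoinRoot.mk m (rd q p) := by
  have hk : RingHom.ker (ev t) ≤
      RingHom.ker ((AdjoinRoot.mk m).comp (mapRingHom (Int.castRingHom (ZMod q)))) := by
    intro p hp
    rw [RingHom.mem_ker] at hp ⊢
    obtain ⟨c, rfl⟩ := ev_ker h ht hp
    simp only [RingHom.comp_apply, coe_mapRingHom, Polynomial.map_mul, map_mul]
    rw [AdjoinRoot.mk_eq_zero.2 hm, zero_mul]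
  refine ⟨(ev t).liftOfSurjective (ev_surj hI h hsq ht) ⟨_, hk⟩, fun p => ?_⟩
  rw [RingHom.liftOfRightInverse_comp_apply]
  rfl

end main

end Pool.Agent.N340.PQ
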