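import Pool.Agent.N340.PQ.Base

/-!
# The two primes over `q` (project PQ of helper783)

By helper340, a port to `ℤ` of helper765's file for the project PJ.
-/

set_option autoImplicit false
set_option linter.all false

open Polynomial IsDedekindDomain WithZero NumberField
open scoped Classical

namespace Pool.Agent.N340.PQ

open Pool.Agent.N783.PQ
open Pool.Agent.N874.PP (Ev Sq1 U0)
open Pool.Agent.N765.PJ (sq_even val_one)

theorem rd_X (q : ℕ) : rd q (X : ℤ[X]) = X := Polynomial.map_X _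

theorem rd_C (q : ℕ) (c : ℤ) : rd q (C c) = C (c : ZMod q) := Polynomial.map_C _

theorem field_adj {q : ℕ} (hq : q.Prime) {m : (ZMod q)[X]} (hm : Irreducible m) :
    IsField (AdjoinRoot m) := by
  have i1 : Fact q.Prime := ⟨hq⟩
  have i2 : Fact (Irreducible m) := ⟨hm⟩
  exact (inferInstance : Field (AdjoinRoot m)).toIsField

theorem card_adj {q : ℕ} (hq : q.Prime) {m : (ZMod q)[X]} (hm : Irreducible m) :
    Nat.card (AdjoinRoot m) = q ^ m.natDegree ∧ Finite (AdjoinRoot m) := by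
  have i1 : Fact q.Prime := ⟨hq⟩
  have hd2 : Module.finrank (ZMod q) ((ZMod q)[X] ⧸ Ideal.span {m}) = m.natDegree :=
    finrank_quotient_span_eq_natDegree
  have f2 : Module.Finite (ZMod q) ((ZMod q)[X] ⧸ Ideal.span {m}) :=
    Module.finite_of_finrank_pos (by rw [hd2]; exact hm.natDegree_pos)
  refine ⟨?_, ?_⟩
  · have := Module.natCard_eq_pow_finrank (K := ZMod q) (V := (ZMod q)[X] ⧸ Ideal.span {m})
    rw [hd2, Nat.card_zmod] at this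
    exact this
  · exact Module.finite_of_finite (ZMod q) (M := (ZMod q)[X] ⧸ Ideal.span {m})

section main

variable {L : Type} [Field L] [NumberField L] {g : ℕ} {f : ℤ[X]} {θ : L}

theorem psi_surj {t : 𝓞 L} {q : ℕ} {m : (ZMod q)[X]} {ψ : 𝓞 L →+* AdjoinRoot m}
    (hψ : ∀ p : ℤ[X], ψ (ev t p) = AdjoinRoot.mk m (rd q p)) : Function.Surjective ψ := by
  intro a
  obtain ⟨p, rfl⟩ := AdjoinRoot.mk_surjective a
  obtain ⟨p, rfl⟩ := rd_surj q p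
  exact ⟨_, hψ p⟩

theorem ker_max {t : 𝓞 L} {q : ℕ} (hq : q.Prime) {m : (ZMod q)[X]}
    (hm : Irreducible m) {ψ : 𝓞 L →+* AdjoinRoot m}
    (hψ : ∀ p : ℤ[X], ψ (ev t p) = AdjoinRoot.mk m (rd q p)) : (RingHom.ker ψ).IsMaximal := by
  apply Ideal.Quotient.maximal_of_isField
  exact MulEquiv.isField (field_adj hq hm)
    (RingHom.quotientKerEquivOfSurjective (psi_surj hψ)).toMulEquiv

/-- a prime over `q` which contains `m(t)` -/
theorem eq_ker (hI : S_INT) (h : IsGen g f θ) (hsq : Squarefree (dsc g f)) {t : 𝓞 L}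
    (ht : algebraMap (𝓞 L) L t = θ) {q : ℕ} (hq : q.Prime) {m : ℤ[X]}
    (hm : Irreducible (rd q m)) {ψ : 𝓞 L →+* AdjoinRoot (rd q m)}
    (hψ : ∀ p : ℤ[X], ψ (ev t p) = AdjoinRoot.mk (rd q m) (rd q p))
    {𝔓 : HeightOneSpectrum (𝓞 L)} (hov : Ov q 𝔓) (hmem : ev t m ∈ 𝔓.asIdeal) :
    𝔓.asIdeal = RingHom.ker ψ := by
  symm
  refine (ker_max hq hm hψ).eq_of_le 𝔓.isPrime.ne_top fun z hz => ?_
  obtain ⟨p, rfl⟩ := ev_surj hI h hsq ht z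
  rw [RingHom.mem_ker, hψ, AdjoinRoot.mk_eq_zero] at hz
  exact mem_of_dvd hov hmem hz

/-- a prime over `q` -/
theorem mem_or {t : 𝓞 L} (h : IsGen g f θ) (ht : algebraMap (𝓞 L) L t = θ) {q : ℕ}
    {hq' : ℤ[X]} (hcg : Cg q f (X * hq')) {𝔓 : HeightOneSpectrum (𝓞 L)} (hov : Ov q 𝔓) :
    t ∈ 𝔓.asIdeal ∨ ev t hq' ∈ 𝔓.asIdeal := by
  have h1 : ev t (X * hq') ∈ 𝔓.asIdeal := by
    refine mem_of_dvd (m := f) hov ?_ ?_
    · rw [ev_f h ht]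
      exact 𝔓.asIdeal.zero_mem
    · rw [map_eq_of_cg hcg]
  rw [map_mul, ev_X] at h1
  exact 𝔓.isPrime.mem_or_mem h1

end main

/-- the reduction of `h q` -/
theorem hbar {g W : ℕ} {S : Finset ℕ} {h : ℕ → ℤ[X]}
    (hS : GoodS g W S h) {q : ℕ} (hq : q ∈ S) (hg : 1 ≤ g) :
    (rd q (h q)).natDegree = 2 * g ∧ ¬ rd q (h q) ∣ X := by
  obtain ⟨h1, h2, h3, h4, h5, h6, h7, h8⟩ := hS q hq
  have i1 : Fact q.Prime := ⟨h1⟩
  have h9 : (rd q (h q)).natDegree = 2 * g := by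
    rw [rd, h5.natDegree_map, h6]
  refine ⟨h9, fun hd => ?_⟩
  have h10 : (rd q (h q)).natDegree ≤ (X : (ZMod q)[X]).natDegree :=
    natDegree_le_of_dvd hd X_ne_zero
  rw [h9, natDegree_X] at h10
  omega

theorem irrX {q : ℕ} (hq : q.Prime) : Irreducible (rd q (X : ℤ[X])) := by
  have i1 : Fact q.Prime := ⟨hq⟩
  rw [rd, Polynomial.map_X]
  exact irreducible_X

/-- **EXQ.** -/
theorem exq (hI : S_INT) : S_EXQ := by
  intro g W L _ _ f θ S h hg hG hsq hS q hqS hcg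
  obtain ⟨hq, -, -, -, hm, hdeg, -, hirr⟩ := hS q hqS
  obtain ⟨hbd, hbX⟩ := hbar hS hqS hg
  obtain ⟨t, ht⟩ := theta_ex hG
  have hfb : rd q f = X * rd q (h q) := by
    rw [map_eq_of_cg hcg, rd, Polynomial.map_mul, Polynomial.map_X]
  have hQ0 : (q : 𝓞 L) ≠ 0 := by exact_mod_cast hq.ne_zero
  obtain ⟨ψ₁, hψ₁⟩ := ex_psi hI hG hsq ht q (rd q (X : ℤ[X]))
    (by rw [hfb, rd, Polynomial.map_X]; exact Dvd.intro _ rfl)
  obtain ⟨ψ₂, hψ₂⟩ := ex_psi hI hG hsq ht q (rd q (h q))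
    (by rw [hfb]; exact ⟨X, X_mul⟩)
  have hirX := irrX hq
  have hm1 := ker_max hq hirX hψ₁
  have hm2 := ker_max hq hirr hψ₂
  have hrdQ : rd q (C (q : ℤ)) = 0 := by
    rw [rd, Polynomial.map_C]
    simp
  have hevC : ev t (C (q : ℤ)) = (q : 𝓞 L) := by
    rw [ev_C]
    simp
  have q1 : (q : 𝓞 L) ∈ RingHom.ker ψ₁ := by
    rw [RingHom.mem_ker, ← hevC, hψ₁, hrdQ, map_zero]
  have q2 : (q : 𝓞 L) ∈ RingHom.ker ψ₂ := by
    rw [RingHom.mem_ker, ← hevC, hψ₂, hrdQ, map_zero]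
  have hb1 : RingHom.ker ψ₁ ≠ ⊥ := fun h0 => hQ0 (by rwa [h0, Ideal.mem_bot] at q1)
  have hb2 : RingHom.ker ψ₂ ≠ ⊥ := fun h0 => hQ0 (by rwa [h0, Ideal.mem_bot] at q2)
  let 𝔓₁ : HeightOneSpectrum (𝓞 L) := ⟨RingHom.ker ψ₁, hm1.isPrime, hb1⟩
  let 𝔮 : HeightOneSpectrum (𝓞 L) := ⟨RingHom.ker ψ₂, hm2.isPrime, hb2⟩
  have ov1 : Ov q 𝔓₁ := q1
  have ov2 : Ov q 𝔮 := q2
  have ht1 : t ∈ 𝔓₁.asIdeal := by
    show t ∈ RingHom.ker ψ₁
    rw [RingHom.mem_ker, ← ev_X t, hψ₁]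
    exact AdjoinRoot.mk_eq_zero.2 dvd_rfl
  have ht2 : t ∉ 𝔮.asIdeal := by
    show t ∉ RingHom.ker ψ₂
    rw [RingHom.mem_ker, ← ev_X t, hψ₂, AdjoinRoot.mk_eq_zero, rd_X]
    exact hbX
  have hprod : 𝔓₁.asIdeal * 𝔮.asIdeal ≤ Ideal.span {(q : 𝓞 L)} := by
    rw [Ideal.mul_le]
    intro x hx y hy
    obtain ⟨p, rfl⟩ := ev_surj hI hG hsq ht x
    obtain ⟨p', rfl⟩ := ev_surj hI hG hsq ht y
    change ev t p ∈ RingHom.ker ψ₁ at hx
    change ev t p' ∈ RingHom.ker ψ₂ at hy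
    rw [RingHom.mem_ker, hψ₁, AdjoinRoot.mk_eq_zero, rd_X] at hx
    rw [RingHom.mem_ker, hψ₂, AdjoinRoot.mk_eq_zero] at hy
    rw [← map_mul]
    refine mem_of_dvd (m := f) (Ideal.mem_span_singleton_self _) ?_ ?_
    · rw [ev_f hG ht]
      exact Ideal.zero_mem _
    · have e : rd q (p * p') = rd q p * rd q p' := by
        rw [rd, Polynomial.map_mul]
      rw [hfb, e]
      exact mul_dvd_mul hx hy
  have hvt : 𝔮.valuation L θ = 1 := by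
    rw [← ht]
    exact 𝔮.valuation_eq_one_iff_notMem.mpr ht2
  have hqL : (q : L) = algebraMap (𝓞 L) L (q : 𝓞 L) := by rw [map_natCast]
  refine ⟨𝔓₁, 𝔮, ov1, ov2, ?_, hvt, ?_, ?_, ?_⟩
  · rw [← ht]
    exact (𝔓₁.valuation_lt_one_iff_mem _).mpr ht1
  · rw [hqL]
    refine val_one hQ0 ov1 fun hmem => ?_
    have h1 : 𝔓₁.asIdeal * 𝔮.asIdeal ≤ 𝔓₁.asIdeal ^ 2 :=
      hprod.trans ((Ideal.span_singleton_le_iff_mem _).mpr hmem)
    rw [← Ideal.dvd_iff_le, sq] at h1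
    have h2 : 𝔓₁.asIdeal ∣ 𝔮.asIdeal := (mul_dvd_mul_iff_left (a := 𝔓₁.asIdeal) hb1).mp h1
    rw [Ideal.dvd_iff_le] at h2
    have h3 := hm2.eq_of_le 𝔓₁.isPrime.ne_top h2
    apply ht2
    show t ∈ RingHom.ker ψ₂
    rw [h3]
    exact ht1
  · rw [hqL]
    refine val_one hQ0 ov2 fun hmem => ?_
    have h1 : 𝔓₁.asIdeal * 𝔮.asIdeal ≤ 𝔮.asIdeal ^ 2 :=
      hprod.trans ((Ideal.span_singleton_le_iff_mem _).mpr hmem)
    rw [← Ideal.dvd_iff_le, sq] at h1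
    have h2 : 𝔮.asIdeal ∣ 𝔓₁.asIdeal := (mul_dvd_mul_iff_right (a := 𝔮.asIdeal) hb2).mp h1
    rw [Ideal.dvd_iff_le] at h2
    exact ht2 (h2 ht1)
  · intro 𝔓 hov
    rcases mem_or hG ht hcg hov with hmm | hmm
    · left
      apply HeightOneSpectrum.ext
      exact eq_ker hI hG hsq ht hq hirX hψ₁ hov (by rw [ev_X]; exact hmm)
    · right
      apply HeightOneSpectrum.ext
      exact eq_ker hI hG hsq ht hq hirr hψ₂ hov hmm

/-- **CSQ.** -/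
theorem csq (hI : S_INT) : S_CSQ := by
  intro g W L _ _ f θ S h hg hG hsq hS q hqS hcg 𝔮 hov hv
  obtain ⟨hq, -, -, -, hm, hdeg, -, hirr⟩ := hS q hqS
  obtain ⟨hbd, hbX⟩ := hbar hS hqS hg
  obtain ⟨t, ht⟩ := theta_ex hG
  have hfb : rd q f = X * rd q (h q) := by
    rw [map_eq_of_cg hcg, rd, Polynomial.map_mul, Polynomial.map_X]
  obtain ⟨ψ, hψ⟩ := ex_psi hI hG hsq ht q (rd q (h q))
    (by rw [hfb]; exact ⟨X, X_mul⟩)
  have htn : t ∉ 𝔮.asIdeal := by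
    rw [← ht] at hv
    exact 𝔮.valuation_eq_one_iff_notMem.mp hv
  have hker : 𝔮.asIdeal = RingHom.ker ψ :=
    eq_ker hI hG hsq ht hq hirr hψ hov ((mem_or hG ht hcg hov).resolve_left htn)
  obtain ⟨c1, c4⟩ := card_adj hq hirr
  have i1 : Fact q.Prime := ⟨hq⟩
  have i2 : Fact (Irreducible (rd q (h q))) := ⟨hirr⟩
  constructor
  · intro c hc
    have hc0 : (c : ZMod q) ≠ 0 := fun h0 => hc ((ZMod.intCast_zmod_eq_zero_iff_dvd c q).1 h0)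
    have hsq' : IsSquare (AdjoinRoot.of (rd q (h q)) (c : ZMod q)) :=
      sq_even (AdjoinRoot.of (rd q (h q))) (g := g) (by rw [c1, hbd, Nat.card_zmod]) _ hc0
    obtain ⟨a, ha⟩ := hsq'
    obtain ⟨z, rfl⟩ := psi_surj hψ a
    have h1 : ψ ((c : 𝓞 L) - z ^ 2) = 0 := by
      rw [map_sub, map_pow, ← ev_C t c, hψ, rd_C, AdjoinRoot.mk_C, ha]
      ring
    have h2 : (c : 𝓞 L) - z ^ 2 ∈ 𝔮.asIdeal := by
      rw [hker]; exact h1
    have h3 : (c : 𝓞 L) ∉ 𝔮.asIdeal := fun h4 => hc ((ov_iff hq hov c).1 h4)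
    refine ⟨algebraMap (𝓞 L) L z, ?_⟩
    have hcL : (c : L) = algebraMap (𝓞 L) L (c : 𝓞 L) := by rw [map_intCast]
    rw [hcL, ← map_pow, ← map_sub, 𝔮.valuation_eq_one_iff_notMem.mpr h3]
    exact (𝔮.valuation_lt_one_iff_mem _).mpr h2
  · rw [hker, Nat.card_congr (RingHom.quotientKerEquivOfSurjective (psi_surj hψ)).toEquiv, c1, hbd]

end Pool.Agent.N340.PQ
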